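import Pool.Agent.Q108.ZF.Main

/-!
# MP_3f6bc3_an: a force field of infinitely many positive point masses without equilibrium point

The question of Clunie, Eremenko and Rossi (`MP_3f6bc3_an`, Q1) is answered in the negative, in
dimension `n = 2`.
-/

set_option autoImplicit false
open Filter Topology Complex ComplexConjugate

namespace Pool.Agent.Results.MP_3f6bc3_an.FieldWithoutEquilibrium

open Pool.Agent.Q108.ZF

/-- the complex form, with the poles shifted so that none of them is `0` -/
theorem complex_form : ∃ (X : Unit ⊕ (ℕ ⊕ ℕ) → ℂ) (A : Unit ⊕ (ℕ ⊕ ℕ) → ℝ),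
    Function.Injective X ∧ (∀ i, X i ≠ 0) ∧ (∀ i, 0 < A i) ∧
    Tendsto (fun i => ‖X i‖) cofinite atTop ∧ Summable (fun i => A i / ‖X i‖) ∧
    ∀ w, (∀ i, w ≠ X i) → ∃ S : ℂ, S ≠ 0 ∧ HasSum (fun i => (A i : ℂ) / (w - X i)) S := by
  obtain ⟨lam, a, hinj, hre, ha, htend, hsum, hne⟩ := main_complex
  have hl0 : ∀ i, lam i ≠ 0 := by
    intro i hi
    have := hre i
    rw [hi] at this
    simp at this
  have hlpos : ∀ i, 0 < ‖lam i‖ := fun i => norm_pos_iff.mpr (hl0 i)
  have hnorm : ∀ i, ‖lam i‖ ≤ ‖1 + lam i‖ := by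
    intro i
    apply le_of_sq_le_sq _ (norm_nonneg _)
    rw [← Complex.normSq_eq_norm_sq, ← Complex.normSq_eq_norm_sq, Complex.normSq_apply,
      Complex.normSq_apply]
    simp only [Complex.add_re, Complex.one_re, Complex.add_im, Complex.one_im, zero_add]
    have := hre i
    nlinarith
  refine ⟨Sum.elim (fun _ => 1) (fun i => 1 + lam i), Sum.elim (fun _ => 1) a, ?_, ?_, ?_, ?_, ?_, ?_⟩
  · rintro (u | i) (v | j) hij
    · rfl
    · exfalso
      simp only [Sum.elim_inl, Sum.elim_inr] at hij
      exact hl0 j (by linear_combination -hij)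
    · exfalso
      simp only [Sum.elim_inl, Sum.elim_inr] at hij
      exact hl0 i (by linear_combination hij)
    · simp only [Sum.elim_inr] at hij
      exact congrArg _ (hinj (by linear_combination hij))
  · rintro (u | i)
    · simp
    · intro h0
      have h1 := congrArg Complex.re h0
      simp only [Sum.elim_inr, Complex.add_re, Complex.one_re, Complex.zero_re] at h1
      linarith [hre i]
  · rintro (u | i)
    · simp
    · exact ha i
  · rw [tendsto_atTop]
    intro C
    have h1 : ∀ᶠ i in cofinite, C ≤ ‖lam i‖ := htend.eventually_ge_atTop C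
    rw [Filter.eventually_cofinite] at h1 ⊢
    refine ((Set.finite_range (Sum.inl : Unit → Unit ⊕ (ℕ ⊕ ℕ))).union (h1.image Sum.inr)).subset ?_
    rintro (u | i) hi
    · left; exact ⟨u, rfl⟩
    · right
      refine ⟨i, ?_, rfl⟩
      intro h2
      exact hi (h2.trans (hnorm i))
  · apply Summable.sum
    · exact (hasSum_fintype _).summable
    · refine Summable.of_nonneg_of_le (fun i => ?_) (fun i => ?_) hsum
      · exact div_nonneg (ha i).le (norm_nonneg _)
      · simp only [Function.comp_apply, Sum.elim_inr]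
        exact div_le_div_of_nonneg_left (ha i).le (hlpos i) (hnorm i)
  · intro w hw
    have hz0 : w - 1 ≠ 0 := by
      intro h
      exact hw (Sum.inl ()) (by simp only [Sum.elim_inl]; linear_combination h)
    have hzl : ∀ i, w - 1 ≠ lam i := by
      intro i h
      exact hw (Sum.inr i) (by simp only [Sum.elim_inr]; linear_combination h)
    obtain ⟨κ, hκ, hsep⟩ := exists_sep htend (fun _ => True) (w - 1) (fun i _ => hzl i) hlpos
    have hs : Summable (pf lam a 0 (w - 1)) :=
      summable_pf (fun i => (ha i).le) hκ hlpos (fun i => hsep i trivial) (by simpa using hsum)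
    refine ⟨(w - 1)⁻¹ + ∑' i, (a i : ℂ) / ((w - 1) - lam i), hne (w - 1) hz0 hzl, ?_⟩
    apply HasSum.sum
    · have := hasSum_fintype ((fun i => ((Sum.elim (fun _ => 1) a i : ℝ) : ℂ) /
        (w - Sum.elim (fun _ => 1) (fun i => 1 + lam i) i)) ∘ (Sum.inl : Unit → Unit ⊕ (ℕ ⊕ ℕ)))
      simpa using this
    · have h1 := hs.hasSum
      have e : (fun i => (a i : ℂ) / ((w - 1) - lam i)) = pf lam a 0 (w - 1) := by
        funext i; simp [pf]
      rw [e]
      convert h1 using 1
      funext i
      simp only [Function.comp_apply, Sum.elim_inr, pf, pow_zero, mul_one]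
      rw [sub_sub]

/-- **MP_3f6bc3_an, Q1, disproved with `n = 2`.** There are infinitely many distinct points `x k`
of the Euclidean plane, none of them `0`, with `‖x k‖ → ∞`, and masses `a k > 0` with
`∑ a k / ‖x k‖ < ∞`, such that the force field `∑ (a k / ‖y - x k‖ ^ 2) • (x k - y)`, which converges
at every point `y` outside the set of the `x k`, has no zero there. -/
theorem result : ∃ (x : ℕ → EuclideanSpace ℝ (Fin 2)) (a : ℕ → ℝ),
    Function.Injective x ∧ (∀ k, x k ≠ 0) ∧ Tendsto (fun k => ‖x k‖) atTop atTop ∧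
    (∀ k, 0 < a k) ∧ Summable (fun k => a k / ‖x k‖) ∧
    ∀ y : EuclideanSpace ℝ (Fin 2), (∀ k, y ≠ x k) →
      Summable (fun k => (a k / ‖y - x k‖ ^ 2) • (x k - y)) ∧
      ∑' k, (a k / ‖y - x k‖ ^ 2) • (x k - y) ≠ 0 := by
  obtain ⟨X, A, hinj, h0, hA, htend, hsum, hfield⟩ := complex_form
  obtain ⟨e⟩ : Nonempty (ℕ ≃ Unit ⊕ (ℕ ⊕ ℕ)) := nonempty_equiv_of_countable
  let Φ := Complex.orthonormalBasisOneI.repr
  refine ⟨fun k => Φ (X (e k)), fun k => A (e k), ?_, ?_, ?_, ?_, ?_, ?_⟩
  · exact Φ.injective.comp (hinj.comp e.injective)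
  · intro k hk
    exact h0 (e k) (by simpa using hk)
  · simp only [LinearIsometryEquiv.norm_map]
    rw [← Nat.cofinite_eq_atTop]
    exact htend.comp e.injective.tendsto_cofinite
  · exact fun k => hA _
  · simp only [LinearIsometryEquiv.norm_map]
    exact e.summable_iff.mpr hsum
  · intro y hy
    set w : ℂ := Φ.symm y with hw
    have hyw : y = Φ w := by simp [hw]
    have hwX : ∀ i, w ≠ X i := by
      intro i hi
      apply hy (e.symm i)
      rw [hyw, hi]
      simp only [e.apply_symm_apply]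
    obtain ⟨S, hS, hsm⟩ := hfield w hwX
    have h1 : HasSum (fun i => Φ (-conj ((A i : ℂ) / (w - X i)))) (Φ (-conj S)) := by
      have h2 := (hsm.map (starRingEnd ℂ) Complex.continuous_conj).neg
      exact h2.map Φ Φ.continuous
    have h3 : ∀ i, Φ (-conj ((A i : ℂ) / (w - X i))) = (A i / ‖y - Φ (X i)‖ ^ 2) • (Φ (X i) - y) := by
      intro i
      have hne : w - X i ≠ 0 := sub_ne_zero.mpr (hwX i)
      rw [hyw, ← map_sub, ← map_sub, LinearIsometryEquiv.norm_map, ← map_smul]
      congr 1
      have h4 : ((‖w - X i‖ : ℝ) : ℂ) ^ 2 = conj (w - X i) * (w - X i) := by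
        rw [← Complex.normSq_eq_conj_mul_self, Complex.normSq_eq_norm_sq]; push_cast; ring
      rw [Complex.real_smul]
      push_cast
      rw [h4, map_div₀, Complex.conj_ofReal]
      have hne2 : conj (w - X i) ≠ 0 := (map_ne_zero _).mpr hne
      field_simp
      ring
    have h5 : HasSum (fun k => (A (e k) / ‖y - Φ (X (e k))‖ ^ 2) • (Φ (X (e k)) - y)) (Φ (-conj S)) := by
      have h6 := e.hasSum_iff.mpr h1
      have h7 : (fun k => (A (e k) / ‖y - Φ (X (e k))‖ ^ 2) • (Φ (X (e k)) - y)) =
          (fun i => Φ (-conj ((A i : ℂ) / (w - X i)))) ∘ e := by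
        funext k
        exact (h3 (e k)).symm
      rw [h7]
      exact h6
    refine ⟨h5.summable, ?_⟩
    rw [h5.tsum_eq]
    simpa using hS

end Pool.Agent.Results.MP_3f6bc3_an.FieldWithoutEquilibrium
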